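import Mathlib

/-!
# Trades in Hadamard matrices are not spanned by rectangular trades

Let `H` be a Hadamard matrix of order `n > 2`.  Permuting three rows of `H` cyclically gives a
Hadamard matrix; the trade `T` of the positions where it differs from `H` is not a symmetric difference
of rectangular trades.

For columns `x`, `y` and a set `S` of positions let `f_xy(S)` be the parity of the number of positions
`(a, x)`, `(a, y)` in `S` with `h_ax ≠ h_ay`.  For a rectangular trade `S = A × B` this is `0` if both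
or none of `x`, `y` lie in `B`, and it is the parity of `|A| / 2` otherwise.  So `f_xy + f_yz + f_xz`
vanishes on rectangular trades, for all columns `x`, `y`, `z`.  It is `1` on `T` if the columns `x`,
`y`, `z` have three different patterns (up to sign) in the three permuted rows.
-/

namespace Pool.Agent.Results.MP_78a590_co.TradesNotSpanned

open Finset Matrix

/-- `H` is a Hadamard matrix of order `n`. -/
def IsHadamard {n : ℕ} (H : Matrix (Fin n) (Fin n) ℤ) : Prop :=
  (∀ i j, H i j = 1 ∨ H i j = -1) ∧ H * Hᵀ = (n : ℤ) • (1 : Matrix (Fin n) (Fin n) ℤ)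

/-- The matrix `H` with the entries in the positions of `T` negated. -/
def flip {n : ℕ} (H : Matrix (Fin n) (Fin n) ℤ) (T : Finset (Fin n × Fin n)) :
    Matrix (Fin n) (Fin n) ℤ := fun i j => if (i, j) ∈ T then - H i j else H i j

/-- `T` is a trade in `H`: it is nonempty and negating the entries in `T` gives a Hadamard matrix. -/
def IsTrade {n : ℕ} (H : Matrix (Fin n) (Fin n) ℤ) (T : Finset (Fin n × Fin n)) : Prop :=
  T.Nonempty ∧ IsHadamard (flip H T)

/-- `T` is a rectangular trade in `H`: a trade of the form `A × B`. -/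
def IsRectTrade {n : ℕ} (H : Matrix (Fin n) (Fin n) ℤ) (T : Finset (Fin n × Fin n)) : Prop :=
  IsTrade H T ∧ ∃ A B : Finset (Fin n), T = A ×ˢ B

/-- `T` is a symmetric difference of finitely many rectangular trades in `H`. -/
def IsCombination {n : ℕ} (H : Matrix (Fin n) (Fin n) ℤ) (T : Finset (Fin n × Fin n)) : Prop :=
  ∃ L : List (Finset (Fin n × Fin n)), (∀ S ∈ L, IsRectTrade H S) ∧ T = L.foldr symmDiff ∅

variable {n : ℕ} {H : Matrix (Fin n) (Fin n) ℤ}

theorem row_sum (h : IsHadamard H) (i k : Fin n) : ∑ j, H i j * H k j = if i = k then (n : ℤ) else 0 := by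
  have h1 := congrFun (congrFun h.2 i) k
  rw [Matrix.mul_apply] at h1
  simp only [Matrix.transpose_apply, Matrix.smul_apply, Matrix.one_apply, smul_eq_mul] at h1
  rw [h1]
  split_ifs <;> simp

theorem sq_one (h : IsHadamard H) (i j : Fin n) : H i j * H i j = 1 := by
  rcases h.1 i j with h | h <;> rw [h] <;> norm_num

/-- the columns are orthogonal as well -/
theorem col_sum (h : IsHadamard H) {x y : Fin n} (hxy : x ≠ y) : ∑ a, H a x * H a y = 0 := by
  have hn : (n : ℤ) ≠ 0 := by
    have : 0 < n := Fin.pos x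
    exact_mod_cast this.ne'
  have hQ : (H.map (Int.cast : ℤ → ℚ)) * ((n : ℚ)⁻¹ • (H.map (Int.cast : ℤ → ℚ))ᵀ) = 1 := by
    ext i k
    rw [Matrix.mul_apply]
    simp only [Matrix.map_apply, Matrix.smul_apply, Matrix.transpose_apply, smul_eq_mul]
    have h1 := row_sum h i k
    have h2 : ∑ j, (H i j : ℚ) * ((n : ℚ)⁻¹ * (H k j : ℚ)) =
        (n : ℚ)⁻¹ * ((∑ j, H i j * H k j : ℤ) : ℚ) := by
      rw [Int.cast_sum, mul_sum]
      refine sum_congr rfl (fun j _ => ?_)
      push_cast
      ring
    rw [h2, h1, Matrix.one_apply]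
    have hn' : (n : ℚ) ≠ 0 := by exact_mod_cast hn
    by_cases hik : i = k
    · rw [if_pos hik, if_pos hik]
      push_cast
      exact inv_mul_cancel₀ hn'
    · rw [if_neg hik, if_neg hik]
      simp
  have hQ' := mul_eq_one_comm.1 hQ
  have h1 := congrFun (congrFun hQ' x) y
  rw [Matrix.mul_apply] at h1
  simp only [Matrix.map_apply, Matrix.smul_apply, Matrix.transpose_apply, smul_eq_mul,
    Matrix.one_apply, if_neg hxy] at h1
  have h2 : (n : ℚ)⁻¹ * ((∑ a, H a x * H a y : ℤ) : ℚ) = 0 := by
    rw [← h1, Int.cast_sum, mul_sum]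
    refine sum_congr rfl (fun j _ => ?_)
    push_cast
    ring
  have hn' : (n : ℚ)⁻¹ ≠ 0 := by
    apply inv_ne_zero
    exact_mod_cast hn
  have h3 := (mul_eq_zero.1 h2).resolve_left hn'
  exact_mod_cast h3

/-- indicator function modulo two -/
def ind (S : Finset (Fin n × Fin n)) (p : Fin n × Fin n) : ZMod 2 := if p ∈ S then 1 else 0

theorem ind_symmDiff (S S' : Finset (Fin n × Fin n)) (p : Fin n × Fin n) :
    ind (symmDiff S S') p = ind S p + ind S' p := by
  unfold ind
  by_cases h1 : p ∈ S <;> by_cases h2 : p ∈ S' <;> simp [h1, h2, Finset.mem_symmDiff]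
  decide

/-- `1` if the entries differ -/
def dd (H : Matrix (Fin n) (Fin n) ℤ) (x y a : Fin n) : ZMod 2 := if H a x = H a y then 0 else 1

/-- the functional `f_xy` -/
def f (H : Matrix (Fin n) (Fin n) ℤ) (x y : Fin n) (S : Finset (Fin n × Fin n)) : ZMod 2 :=
  ∑ a, (ind S (a, x) + ind S (a, y)) * dd H x y a

theorem f_symmDiff (x y : Fin n) (S S' : Finset (Fin n × Fin n)) :
    f H x y (symmDiff S S') = f H x y S + f H x y S' := by
  unfold f
  rw [← sum_add_distrib]
  refine sum_congr rfl (fun a _ => ?_)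
  rw [ind_symmDiff, ind_symmDiff]
  ring

/-- the functional `f_xy + f_yz + f_xz` -/
def g (H : Matrix (Fin n) (Fin n) ℤ) (x y z : Fin n) (S : Finset (Fin n × Fin n)) : ZMod 2 :=
  f H x y S + f H y z S + f H x z S

theorem g_symmDiff (x y z : Fin n) (S S' : Finset (Fin n × Fin n)) :
    g H x y z (symmDiff S S') = g H x y z S + g H x y z S' := by
  unfold g
  rw [f_symmDiff, f_symmDiff, f_symmDiff]
  ring

/-- the number of rows in `A` where the columns `x` and `y` differ -/
def cnt (H : Matrix (Fin n) (Fin n) ℤ) (A : Finset (Fin n)) (x y : Fin n) : ℕ :=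
  (A.filter (fun a => H a x ≠ H a y)).card

/-- membership as an element of `ZMod 2` -/
def mem2 (B : Finset (Fin n)) (x : Fin n) : ZMod 2 := if x ∈ B then 1 else 0

theorem f_rect (A B : Finset (Fin n)) (x y : Fin n) :
    f H x y (A ×ˢ B) = (mem2 B x + mem2 B y) * (cnt H A x y : ZMod 2) := by
  have h1 : (cnt H A x y : ZMod 2) = ∑ a ∈ A, dd H x y a := by
    unfold cnt dd
    rw [card_filter]
    push_cast
    refine sum_congr rfl (fun a _ => ?_)
    by_cases h : H a x = H a y <;> simp [h]
  rw [h1, mul_sum]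
  unfold f
  rw [← sum_subset (subset_univ A)]
  · refine sum_congr rfl (fun a ha => ?_)
    congr 1
    unfold ind mem2
    simp only [mem_product, ha, true_and]
  · intro a _ ha
    unfold ind
    simp [mem_product, ha]

theorem cnt_rect (h : IsHadamard H) {A B : Finset (Fin n)} (hT : IsHadamard (flip H (A ×ˢ B)))
    {x y : Fin n} (hx : x ∈ B) (hy : y ∉ B) : 2 * cnt H A x y = A.card := by
  have hxy : x ≠ y := fun e => hy (e ▸ hx)
  have h1 := col_sum h hxy
  have h2 := col_sum hT hxy
  have h3 : ∀ a, flip H (A ×ˢ B) a x * flip H (A ×ˢ B) a y =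
      H a x * H a y - (if a ∈ A then 2 * (H a x * H a y) else 0) := by
    intro a
    unfold flip
    by_cases ha : a ∈ A
    · simp only [mem_product, ha, hx, hy, and_self, and_false, if_true, if_false]
      ring
    · simp only [mem_product, ha, false_and, if_false]
      ring
  rw [sum_congr rfl (fun a _ => h3 a), sum_sub_distrib, h1, zero_sub, neg_eq_zero,
    ← sum_filter, filter_mem_eq_inter, univ_inter, ← mul_sum] at h2
  have h4 : ∑ a ∈ A, H a x * H a y = 0 := by
    rcases mul_eq_zero.1 h2 with h5 | h5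
    · norm_num at h5
    · exact h5
  have h5 : ∀ a, H a x * H a y = 1 - 2 * (if H a x ≠ H a y then 1 else 0) := by
    intro a
    rcases h.1 a x with e1 | e1 <;> rcases h.1 a y with e2 | e2 <;> rw [e1, e2] <;> norm_num
  rw [sum_congr rfl (fun a _ => h5 a), sum_sub_distrib, ← mul_sum, sum_const, nsmul_eq_mul,
    mul_one] at h4
  have h6 : (cnt H A x y : ℤ) = ∑ a ∈ A, (if H a x ≠ H a y then (1 : ℤ) else 0) := by
    unfold cnt
    rw [card_filter]
    push_cast
    rfl
  rw [← h6] at h4
  omega

theorem g_rect (h : IsHadamard H) {S : Finset (Fin n × Fin n)} (hS : IsRectTrade H S)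
    (x y z : Fin n) : g H x y z S = 0 := by
  obtain ⟨⟨-, hT⟩, A, B, rfl⟩ := hS
  unfold g
  rw [f_rect, f_rect, f_rect]
  have hcomm : ∀ x y, cnt H A x y = cnt H A y x := by
    intro x y
    unfold cnt
    simp only [ne_comm]
  have key : ∀ x y, (mem2 B x + mem2 B y) * (cnt H A x y : ZMod 2) =
      (mem2 B x + mem2 B y) * ((A.card / 2 : ℕ) : ZMod 2) := by
    intro x y
    by_cases hx : x ∈ B <;> by_cases hy : y ∈ B
    · simp only [mem2, hx, hy, if_true]
      have : (1 : ZMod 2) + 1 = 0 := by decide
      rw [this, zero_mul, zero_mul]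
    · have h1 := cnt_rect h hT hx hy
      have h2 : cnt H A x y = A.card / 2 := by omega
      rw [h2]
    · have h1 := cnt_rect h hT hy hx
      have h2 : cnt H A x y = A.card / 2 := by rw [hcomm]; omega
      rw [h2]
    · simp only [mem2, hx, hy, if_false, add_zero, zero_mul]
  rw [key x y, key y z, key x z, ← add_mul, ← add_mul]
  have : mem2 B x + mem2 B y + (mem2 B y + mem2 B z) + (mem2 B x + mem2 B z) = 0 := by
    have h2 : (2 : ZMod 2) = 0 := by decide
    linear_combination (mem2 B x + mem2 B y + mem2 B z) * h2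
  rw [this, zero_mul]

theorem g_combination (h : IsHadamard H) {T : Finset (Fin n × Fin n)} (hT : IsCombination H T)
    (x y z : Fin n) : g H x y z T = 0 := by
  obtain ⟨L, hL, rfl⟩ := hT
  induction L with
  | nil =>
    simp [g, f, ind]
  | cons S L ih =>
    rw [List.foldr_cons, g_symmDiff, g_rect h (hL S (by simp)), zero_add]
    exact ih (fun S' hS' => hL S' (by simp [hS']))

/-- the positions where `H` differs from `H` with rows permuted by `π` -/
def permTrade (H : Matrix (Fin n) (Fin n) ℤ) (π : Equiv.Perm (Fin n)) : Finset (Fin n × Fin n) :=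
  univ.filter (fun p => H p.1 p.2 ≠ H (π p.1) p.2)

theorem flip_perm (h : IsHadamard H) (π : Equiv.Perm (Fin n)) :
    flip H (permTrade H π) = H.submatrix π id := by
  funext a c
  rw [Matrix.submatrix_apply, id]
  unfold flip permTrade
  simp only [mem_filter, mem_univ, true_and]
  rcases h.1 a c with h1 | h1 <;> rcases h.1 (π a) c with h2 | h2 <;> rw [h1, h2] <;> norm_num

theorem hadamard_perm (h : IsHadamard H) (π : Equiv.Perm (Fin n)) :
    IsHadamard (H.submatrix π id) := by
  refine ⟨fun i j => h.1 _ _, ?_⟩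
  ext i k
  rw [Matrix.mul_apply]
  simp only [Matrix.transpose_apply, Matrix.smul_apply, Matrix.one_apply, smul_eq_mul,
    Matrix.submatrix_apply, id]
  rw [row_sum h (π i) (π k)]
  by_cases hik : i = k
  · subst hik
    simp
  · have : π i ≠ π k := fun e => hik (π.injective e)
    simp [hik, this]

/-- A column with prescribed agreements `s`, `t` among three different rows. -/
theorem exists_col (h : IsHadamard H) {i k l : Fin n} (hik : i ≠ k) (hkl : k ≠ l) (hil : i ≠ l)
    (s t : ℤ) (hs : s = 1 ∨ s = -1) (ht : t = 1 ∨ t = -1) :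
    ∃ c, H i c * H k c = s ∧ H k c * H l c = t := by
  have hn : 0 < n := Fin.pos i
  have hsum : ∑ c, (1 + s * (H i c * H k c)) * (1 + t * (H k c * H l c)) = n := by
    have h1 : ∀ c, (1 + s * (H i c * H k c)) * (1 + t * (H k c * H l c)) =
        1 + s * (H i c * H k c) + t * (H k c * H l c) + s * t * (H i c * H l c) := by
      intro c
      linear_combination (s * t * (H i c * H l c)) * sq_one h k c
    rw [sum_congr rfl (fun c _ => h1 c), sum_add_distrib, sum_add_distrib, sum_add_distrib,
      ← mul_sum, ← mul_sum, ← mul_sum, row_sum h, row_sum h, row_sum h, if_neg hik, if_neg hkl,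
      if_neg hil]
    simp
  by_contra hcon
  push Not at hcon
  have h0 : ∀ c, (1 + s * (H i c * H k c)) * (1 + t * (H k c * H l c)) = 0 := by
    intro c
    have h2 := hcon c
    rcases hs with rfl | rfl <;> rcases ht with rfl | rfl <;>
      rcases h.1 i c with e1 | e1 <;> rcases h.1 k c with e2 | e2 <;>
      rcases h.1 l c with e3 | e3 <;> rw [e1, e2, e3] at h2 ⊢ <;> simp at h2 ⊢
  rw [sum_congr rfl (fun c _ => h0 c), sum_const_zero] at hsum
  have : (n : ℤ) ≠ 0 := by exact_mod_cast hn.ne'
  exact this hsum.symm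

/-- the value of `f_xy` on the trade, from the entries in the three permuted rows -/
def E (p q r p' q' r' : ℤ) : ZMod 2 :=
  ((if p ≠ q then 1 else 0) + (if p' ≠ q' then 1 else 0)) * (if p = p' then 0 else 1) +
  ((if q ≠ r then 1 else 0) + (if q' ≠ r' then 1 else 0)) * (if q = q' then 0 else 1) +
  ((if r ≠ p then 1 else 0) + (if r' ≠ p' then 1 else 0)) * (if r = r' then 0 else 1)

theorem f_cycle {i k l : Fin n} (hik : i ≠ k) (hkl : k ≠ l) (hil : i ≠ l)
    {π : Equiv.Perm (Fin n)} (h1 : π i = k) (h2 : π k = l) (h3 : π l = i)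
    (h4 : ∀ a, a ≠ i → a ≠ k → a ≠ l → π a = a) (x y : Fin n) :
    f H x y (permTrade H π) = E (H i x) (H k x) (H l x) (H i y) (H k y) (H l y) := by
  unfold f
  rw [← sum_subset (subset_univ ({i, k, l} : Finset (Fin n)))]
  · rw [sum_insert (by simp [hik, hil]), sum_insert (by simp [hkl]), sum_singleton]
    unfold E ind permTrade dd
    simp only [mem_filter, mem_univ, true_and, h1, h2, h3]
    ring
  · intro a _ ha
    simp only [mem_insert, mem_singleton, not_or] at ha
    have h5 := h4 a ha.1 ha.2.1 ha.2.2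
    unfold ind permTrade
    simp [h5]

/-- A Hadamard matrix with three rows has a trade which is not a combination. -/
theorem exists_trade (h : IsHadamard H) {i k l : Fin n} (hik : i ≠ k) (hkl : k ≠ l)
    (hil : i ≠ l) : ∃ T, IsTrade H T ∧ ¬ IsCombination H T := by
  let π : Equiv.Perm (Fin n) := Equiv.swap i k * Equiv.swap k l
  have h1 : π i = k := by
    show Equiv.swap i k (Equiv.swap k l i) = k
    rw [Equiv.swap_apply_of_ne_of_ne hik hil, Equiv.swap_apply_left]
  have h2 : π k = l := by
    show Equiv.swap i k (Equiv.swap k l k) = l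
    rw [Equiv.swap_apply_left, Equiv.swap_apply_of_ne_of_ne hil.symm hkl.symm]
  have h3 : π l = i := by
    show Equiv.swap i k (Equiv.swap k l l) = i
    rw [Equiv.swap_apply_right, Equiv.swap_apply_right]
  have h4 : ∀ a, a ≠ i → a ≠ k → a ≠ l → π a = a := by
    intro a ha hb hc
    show Equiv.swap i k (Equiv.swap k l a) = a
    rw [Equiv.swap_apply_of_ne_of_ne hb hc, Equiv.swap_apply_of_ne_of_ne ha hb]
  obtain ⟨x, hx1, hx2⟩ := exists_col h hik hkl hil 1 1 (Or.inl rfl) (Or.inl rfl)
  obtain ⟨y, hy1, hy2⟩ := exists_col h hik hkl hil (-1) 1 (Or.inr rfl) (Or.inl rfl)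
  obtain ⟨z, hz1, hz2⟩ := exists_col h hik hkl hil (-1) (-1) (Or.inr rfl) (Or.inr rfl)
  refine ⟨permTrade H π, ⟨⟨(i, y), ?_⟩, ?_⟩, fun hcomb => ?_⟩
  · unfold permTrade
    simp only [mem_filter, mem_univ, true_and, h1]
    intro e
    rw [e, sq_one h] at hy1
    norm_num at hy1
  · rw [flip_perm h]
    exact hadamard_perm h π
  · have hg := g_combination h hcomb x y z
    unfold g at hg
    rw [f_cycle hik hkl hil h1 h2 h3 h4, f_cycle hik hkl hil h1 h2 h3 h4,
      f_cycle hik hkl hil h1 h2 h3 h4] at hg
    have key : ∀ (p q s : ℤ), p = 1 ∨ p = -1 → p * q = s → q = s * p := by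
      intro p q s hp hq
      rcases hp with rfl | rfl
      · linear_combination hq
      · linear_combination -hq
    have ex1 := key _ _ _ (h.1 i x) hx1
    have ex2 := key _ _ _ (h.1 k x) hx2
    have ey1 := key _ _ _ (h.1 i y) hy1
    have ey2 := key _ _ _ (h.1 k y) hy2
    have ez1 := key _ _ _ (h.1 i z) hz1
    have ez2 := key _ _ _ (h.1 k z) hz2
    rw [ex2, ey2, ez2, ex1, ey1, ez1] at hg
    rcases h.1 i x with e1 | e1 <;> rcases h.1 i y with e2 | e2 <;>
      rcases h.1 i z with e3 | e3 <;> rw [e1, e2, e3] at hg <;> revert hg <;> decide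

/-! ### Orders one and two -/

theorem rows_trade (h : IsHadamard H) {A : Finset (Fin n)} (hA : A.Nonempty) :
    IsRectTrade H (A ×ˢ univ) := by
  have hn : (univ : Finset (Fin n)).Nonempty := ⟨hA.choose, mem_univ _⟩
  refine ⟨⟨hA.product hn, ?_, ?_⟩, A, univ, rfl⟩
  · intro i j
    unfold flip
    split_ifs
    · rcases h.1 i j with e | e <;> rw [e] <;> norm_num
    · exact h.1 i j
  · ext i k
    rw [Matrix.mul_apply]
    simp only [Matrix.transpose_apply, Matrix.smul_apply, Matrix.one_apply, smul_eq_mul]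
    have h1 : ∀ j, flip H (A ×ˢ univ) i j * flip H (A ×ˢ univ) k j =
        ((if i ∈ A then -1 else 1) * (if k ∈ A then -1 else 1)) * (H i j * H k j) := by
      intro j
      unfold flip
      simp only [mem_product, mem_univ, and_true]
      split_ifs <;> ring
    rw [sum_congr rfl (fun j _ => h1 j), ← mul_sum, row_sum h]
    by_cases hik : i = k
    · subst hik
      split_ifs <;> simp
    · simp [hik]

theorem cols_trade (h : IsHadamard H) {B : Finset (Fin n)} (hB : B.Nonempty) :
    IsRectTrade H (univ ×ˢ B) := by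
  have hn : (univ : Finset (Fin n)).Nonempty := ⟨hB.choose, mem_univ _⟩
  refine ⟨⟨hn.product hB, ?_, ?_⟩, univ, B, rfl⟩
  · intro i j
    unfold flip
    split_ifs
    · rcases h.1 i j with e | e <;> rw [e] <;> norm_num
    · exact h.1 i j
  · ext i k
    rw [Matrix.mul_apply]
    simp only [Matrix.transpose_apply, Matrix.smul_apply, Matrix.one_apply, smul_eq_mul]
    have h1 : ∀ j, flip H (univ ×ˢ B) i j * flip H (univ ×ˢ B) k j = H i j * H k j := by
      intro j
      unfold flip
      simp only [mem_product, mem_univ, true_and]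
      split_ifs <;> ring
    rw [sum_congr rfl (fun j _ => h1 j), row_sum h]
    by_cases hik : i = k
    · subst hik
      simp
    · simp [hik]

theorem span_two : ∀ T : Finset (Fin 2 × Fin 2), T.card % 2 = 0 → ∃ α β γ : Bool,
    T = ((if α then [({0} : Finset (Fin 2)) ×ˢ univ] else []) ++
      ((if β then [({1} : Finset (Fin 2)) ×ˢ univ] else []) ++
      (if γ then [univ ×ˢ ({0} : Finset (Fin 2))] else []))).foldr symmDiff ∅ := by
  decide +kernel

theorem card_two : ∀ T : Finset (Fin 2 × Fin 2), T.card = (if (0, 0) ∈ T then 1 else 0) +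
    (if (0, 1) ∈ T then 1 else 0) + (if (1, 0) ∈ T then 1 else 0) +
    (if (1, 1) ∈ T then 1 else 0) := by
  decide +kernel

theorem two_case {H : Matrix (Fin 2) (Fin 2) ℤ} (h : IsHadamard H) {T : Finset (Fin 2 × Fin 2)}
    (hT : IsTrade H T) : IsCombination H T := by
  have hcard : T.card % 2 = 0 := by
    have h1 := row_sum h 0 1
    have h2 := row_sum hT.2 0 1
    rw [Fin.sum_univ_two, if_neg (by decide)] at h1 h2
    rw [card_two T]
    unfold flip at h2
    rcases h.1 0 0 with e1 | e1 <;> rcases h.1 0 1 with e2 | e2 <;>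
      rcases h.1 1 0 with e3 | e3 <;> rcases h.1 1 1 with e4 | e4 <;>
      rw [e1, e2, e3, e4] at h1 h2 <;> norm_num at h1 <;>
      split_ifs at h2 ⊢ <;> first | rfl | (norm_num at h2)
  obtain ⟨α, β, γ, hT'⟩ := span_two T hcard
  refine ⟨_, ?_, hT'⟩
  intro S hS
  have ht : ∀ a : Fin 2, ({a} : Finset (Fin 2)).Nonempty := fun a => ⟨a, by simp⟩
  simp only [List.mem_append] at hS
  rcases hS with hS | hS | hS
  · cases α
    · simp at hS
    · simp only [if_true, List.mem_singleton] at hS
      rw [hS]
      exact rows_trade h (ht 0)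
  · cases β
    · simp at hS
    · simp only [if_true, List.mem_singleton] at hS
      rw [hS]
      exact rows_trade h (ht 1)
  · cases γ
    · simp at hS
    · simp only [if_true, List.mem_singleton] at hS
      rw [hS]
      exact cols_trade h (ht 0)

/-- **Trades and rectangular trades.**  For a Hadamard matrix `H` of order `n` every trade in `H` is a
symmetric difference of rectangular trades in `H` if and only if `n ≤ 2`. -/
theorem result (n : ℕ) (H : Matrix (Fin n) (Fin n) ℤ) (hH : IsHadamard H) :
    (∀ T, IsTrade H T → IsCombination H T) ↔ n ≤ 2 := by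
  constructor
  · intro hall
    by_contra hn
    have hn3 : 3 ≤ n := by omega
    obtain ⟨T, hT, hT'⟩ := exists_trade hH (i := ⟨0, by omega⟩) (k := ⟨1, by omega⟩)
      (l := ⟨2, by omega⟩) (by simp) (by simp) (by simp)
    exact hT' (hall T hT)
  · intro hn T hT
    interval_cases n
    · obtain ⟨p, -⟩ := hT.1
      exact p.1.elim0
    · have h1 : T = univ ×ˢ univ := by
        obtain ⟨p, hp⟩ := hT.1
        ext q
        have : q = p := Subsingleton.elim _ _
        rw [this]
        exact ⟨fun _ => mem_product.2 ⟨mem_univ _, mem_univ _⟩, fun _ => hp⟩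
      refine ⟨[T], ?_, ?_⟩
      · intro S hS
        rw [List.mem_singleton] at hS
        rw [hS]
        exact ⟨hT, _, _, h1⟩
      · show T = symmDiff T ∅
        rw [← Finset.bot_eq_empty, symmDiff_bot]
    · exact two_case hH hT

end Pool.Agent.Results.MP_78a590_co.TradesNotSpanned
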